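import Pool.Agent.TH144.MB.Hyper
import Pool.Agent.N212.FQ.F

/-!
# Finite commutative groups of linear maps: diagonalisation, and change of coordinates
-/

set_option autoImplicit false

namespace Pool.Agent.Run7.h971.AQ

open MvPolynomial Module Pool.Agent.N212.FQ

variable {M : ℕ}

/-- A finite commutative group of linear maps has a basis of common eigenvectors. -/
theorem exists_basis {G : Type} [CommGroup G] [Finite G]
    (ρ : Representation ℂ G (Fin M → ℂ)) :
    ∃ (b : Basis (Fin M) ℂ (Fin M → ℂ)) (c : Fin M → G →* ℂˣ),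
      ∀ g i, ρ g (b i) = (c i g : ℂ) • b i := by
  classical
  let S : Set (Fin M → ℂ) := {v | ∀ g, ∃ μ : ℂ, ρ g v = μ • v}
  have hS : Submodule.span ℂ S = ⊤ := by
    have hss : ∀ g, Module.End.IsFinitelySemisimple (ρ g : Module.End ℂ (Fin M → ℂ)) := by
      intro g
      have h1 : Module.End.IsSemisimple (ρ g : Module.End ℂ (Fin M → ℂ)) := by
        refine Module.End.isSemisimple_of_squarefree_aeval_eq_zero
          (p := Polynomial.X ^ (Nat.card G) - 1) ?_ ?_
        · refine (Polynomial.X_pow_sub_one_separable_iff.2 ?_).squarefree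
          exact_mod_cast Nat.card_pos.ne'
        · rw [map_sub, map_pow, Polynomial.aeval_X, map_one, ← map_pow, pow_card_eq_one', map_one,
            sub_self]
      exact h1.isFinitelySemisimple
    have h2 : ⨆ χ : G → ℂ, ⨅ g, Module.End.maxGenEigenspace (ρ g : Module.End ℂ (Fin M → ℂ)) (χ g) =
        ⊤ :=
      Module.End.iSup_iInf_maxGenEigenspace_eq_top_of_iSup_maxGenEigenspace_eq_top_of_commute
        (fun g => (ρ g : Module.End ℂ (Fin M → ℂ))) (fun g h _ => by
          show ρ g * ρ h = ρ h * ρ g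
          rw [← map_mul, ← map_mul, mul_comm])
        (fun g => Module.End.iSup_maxGenEigenspace_eq_top _)
    rw [eq_top_iff, ← h2]
    refine iSup_le fun χ => ?_
    intro v hv
    refine Submodule.subset_span fun g => ⟨χ g, ?_⟩
    have := (Submodule.mem_iInf _).1 hv g
    rw [(hss g).maxGenEigenspace_eq_eigenspace] at this
    exact Module.End.mem_eigenspace_iff.1 this
  obtain ⟨b0, hb0S, hb0span, hb0li⟩ := exists_linearIndependent ℂ S
  let b1 : Basis b0 ℂ (Fin M → ℂ) := Basis.mk hb0li (by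
    rw [Subtype.range_coe, hb0span, hS])
  have hfin : Finite b0 := b1.linearIndependent.finite
  have _ := Fintype.ofFinite b0
  have hcard : Fintype.card b0 = M := by
    have h1 := Module.finrank_eq_card_basis b1
    rw [Module.finrank_fin_fun] at h1
    exact h1.symm
  let b := b1.reindex (Fintype.equivFinOfCardEq hcard)
  have hb : ∀ i, b i ∈ S := by
    intro i
    have h1 : b i = b1 ((Fintype.equivFinOfCardEq hcard).symm i) := Basis.reindex_apply _ _ _
    rw [h1, Basis.mk_apply]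
    exact hb0S (Subtype.coe_prop _)
  choose c hc using hb
  have hmul : ∀ i g h, c i (g * h) = c i g * c i h := by
    intro i g h
    have h1 := hc i (g * h)
    rw [map_mul, Module.End.mul_apply, hc i h, map_smul, hc i g, smul_smul] at h1
    have h2 := smul_left_injective ℂ (b.ne_zero i) h1
    rw [mul_comm (c i g)]
    exact h2.symm
  have hone : ∀ i, c i 1 = 1 := by
    intro i
    have h1 := hc i 1
    rw [map_one, Module.End.one_apply] at h1
    have h2 : (1 : ℂ) • b i = c i 1 • b i := by rw [one_smul]; exact h1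
    exact (smul_left_injective ℂ (b.ne_zero i) h2).symm
  refine ⟨b, fun i => MonoidHom.toHomUnits
    { toFun := c i, map_one' := hone i, map_mul' := hmul i }, fun g i => ?_⟩
  rw [MonoidHom.coe_toHomUnits]
  exact hc i g

theorem subst_mul (A : (Fin M → ℂ) →ₗ[ℂ] (Fin M → ℂ)) (p q : MvPolynomial (Fin M) ℂ) :
    subst A (p * q) = subst A p * subst A q := map_mul _ _ _

theorem subst_subst (A B : (Fin M → ℂ) →ₗ[ℂ] (Fin M → ℂ)) (h : ∀ x, A (B x) = x)
    (p : MvPolynomial (Fin M) ℂ) : subst B (subst A p) = p := by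
  refine MvPolynomial.funext fun x => ?_
  rw [eval_subst, eval_subst, h]

theorem comp_subst (A : (Fin M → ℂ) →ₗ[ℂ] (Fin M → ℂ)) (p : MvPolynomial (Fin M) ℂ) (n : ℕ) :
    homogeneousComponent n (subst A p) = subst A (homogeneousComponent n p) := by
  classical
  have h1 : subst A p = ∑ i ∈ Finset.range (p.totalDegree + 1),
      subst A (homogeneousComponent i p) := by
    conv_lhs => rw [← sum_homogeneousComponent p]
    unfold subst
    rw [map_sum]
  rw [h1, map_sum]
  have h2 : ∀ i, homogeneousComponent n (subst A (homogeneousComponent i p)) =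
      if n = i then subst A (homogeneousComponent n p) else 0 := by
    intro i
    rw [homogeneousComponent_of_mem ((mem_homogeneousSubmodule i _).2
      (subst_isHomogeneous A (homogeneousComponent_isHomogeneous i p)))]
    split_ifs with h
    · rw [h]
    · rfl
  simp only [h2]
  rw [Finset.sum_ite_eq]
  split_ifs with h
  · rfl
  · rw [Finset.mem_range, not_lt] at h
    rw [homogeneousComponent_eq_zero _ _ (by omega)]
    unfold subst
    rw [map_zero]

/-- the substitution as a homomorphism -/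
noncomputable def sh (A : (Fin M → ℂ) →ₗ[ℂ] (Fin M → ℂ)) :
    MvPolynomial (Fin M) ℂ →ₐ[ℂ] MvPolynomial (Fin M) ℂ :=
  bind₁ (fun i => lin (LinearMap.proj i ∘ₗ A))

theorem sh_apply (A : (Fin M → ℂ) →ₗ[ℂ] (Fin M → ℂ)) (p : MvPolynomial (Fin M) ℂ) :
    sh A p = subst A p := rfl

/-- the ideal in the new coordinates: `p` is in it if and only if `p (T⁻¹ y)` is in `I` -/
noncomputable def newIdeal (I : Ideal (MvPolynomial (Fin M) ℂ))
    (T : (Fin M → ℂ) ≃ₗ[ℂ] (Fin M → ℂ)) : Ideal (MvPolynomial (Fin M) ℂ) :=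
  I.comap (sh (T.symm : (Fin M → ℂ) →ₗ[ℂ] (Fin M → ℂ)))

theorem mem_newIdeal {I : Ideal (MvPolynomial (Fin M) ℂ)} {T : (Fin M → ℂ) ≃ₗ[ℂ] (Fin M → ℂ)}
    {p : MvPolynomial (Fin M) ℂ} :
    p ∈ newIdeal I T ↔ subst (T.symm : (Fin M → ℂ) →ₗ[ℂ] (Fin M → ℂ)) p ∈ I := by
  rw [newIdeal, Ideal.mem_comap, sh_apply]

theorem subst_mem {I : Ideal (MvPolynomial (Fin M) ℂ)} {T : (Fin M → ℂ) ≃ₗ[ℂ] (Fin M → ℂ)}
    {p : MvPolynomial (Fin M) ℂ} (hp : p ∈ I) :
    subst (T : (Fin M → ℂ) →ₗ[ℂ] (Fin M → ℂ)) p ∈ newIdeal I T := by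
  rw [mem_newIdeal, subst_subst _ _ (fun x => by simp)]
  exact hp

theorem zero_newIdeal {I : Ideal (MvPolynomial (Fin M) ℂ)} {T : (Fin M → ℂ) ≃ₗ[ℂ] (Fin M → ℂ)}
    {v : Fin M → ℂ} :
    (∀ p ∈ newIdeal I T, eval v p = 0) ↔ ∀ p ∈ I, eval (T v) p = 0 := by
  constructor
  · intro h p hp
    have h1 := h _ (subst_mem (T := T) hp)
    rwa [eval_subst] at h1
  · intro h p hp
    have h1 := h _ (mem_newIdeal.1 hp)
    rw [eval_subst] at h1
    simpa using h1

theorem hom_newIdeal {I : Ideal (MvPolynomial (Fin M) ℂ)} {T : (Fin M → ℂ) ≃ₗ[ℂ] (Fin M → ℂ)}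
    (hI : ∀ p ∈ I, ∀ n, homogeneousComponent n p ∈ I) :
    ∀ p ∈ newIdeal I T, ∀ n, homogeneousComponent n p ∈ newIdeal I T := by
  intro p hp n
  rw [mem_newIdeal] at hp ⊢
  rw [← comp_subst]
  exact hI _ hp n

/-- the same form in the old coordinates -/
theorem exists_lin (T : (Fin M → ℂ) ≃ₗ[ℂ] (Fin M → ℂ)) (a : Fin M → ℂ) :
    ∃ a' : Fin M → ℂ, Pool.Agent.TH144.MB.lin a' =
      subst (T.symm : (Fin M → ℂ) →ₗ[ℂ] (Fin M → ℂ)) (Pool.Agent.TH144.MB.lin a) := by
  refine ⟨fun j => ∑ l, a l * (T.symm (Pi.single j 1) l), ?_⟩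
  refine MvPolynomial.funext fun y => ?_
  rw [eval_subst, Pool.Agent.TH144.MB.eval_lin, Pool.Agent.TH144.MB.eval_lin]
  have h : y = ∑ i, y i • (Pi.single i (1 : ℂ) : Fin M → ℂ) := by
    ext j
    simp [Finset.sum_apply, Pi.single_apply]
  have h1 : ∀ l, T.symm y l = ∑ j, y j * T.symm (Pi.single j 1) l := by
    intro l
    conv_lhs => rw [h]
    rw [map_sum, Finset.sum_apply]
    refine Finset.sum_congr rfl fun j _ => ?_
    rw [map_smul, Pi.smul_apply, smul_eq_mul]
  simp only [LinearEquiv.coe_coe, h1, Finset.mul_sum, Finset.sum_mul]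
  rw [Finset.sum_comm]
  refine Finset.sum_congr rfl fun l _ => Finset.sum_congr rfl fun j _ => ?_
  ring

theorem topBound_newIdeal {I : Ideal (MvPolynomial (Fin M) ℂ)}
    {T : (Fin M → ℂ) ≃ₗ[ℂ] (Fin M → ℂ)} {r : ℕ} (h : Pool.Agent.TH144.MB.TopBound I r) :
    Pool.Agent.TH144.MB.TopBound (newIdeal I T) r := by
  intro s L hL t ht p hp
  choose L' hL' using fun i => exists_lin T (L i)
  have h0 : ∀ v : Fin M → ℂ, (∀ p ∈ I, eval v p = 0) →
      (∀ i, eval v (Pool.Agent.TH144.MB.lin (L' i)) = 0) → v = 0 := by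
    intro v hv hLv
    have h2 : T.symm v = 0 := by
      refine hL _ (zero_newIdeal.2 ?_) fun i => ?_
      · rw [LinearEquiv.apply_symm_apply]
        exact hv
      · have h3 := hLv i
        rw [hL', eval_subst] at h3
        exact h3
    have h4 := congrArg T h2
    rwa [LinearEquiv.apply_symm_apply, map_zero] at h4
  have hp' := subst_isHomogeneous (T.symm : (Fin M → ℂ) →ₗ[ℂ] (Fin M → ℂ)) hp
  have h1 := h s L' h0 t ht _ hp'
  obtain ⟨a, ha, b, hb, hab⟩ := Submodule.mem_sup.1 h1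
  have hinv : ∀ q : MvPolynomial (Fin M) ℂ,
      subst (T : (Fin M → ℂ) →ₗ[ℂ] (Fin M → ℂ))
        (subst (T.symm : (Fin M → ℂ) →ₗ[ℂ] (Fin M → ℂ)) q) = q :=
    fun q => subst_subst _ _ (fun x => by simp) q
  have h2 : p = sh (T : (Fin M → ℂ) →ₗ[ℂ] (Fin M → ℂ)) a +
      sh (T : (Fin M → ℂ) →ₗ[ℂ] (Fin M → ℂ)) b := by
    rw [← map_add, hab, sh_apply, hinv]
  rw [h2]
  refine Ideal.add_mem _ (Ideal.mem_sup_left ?_) (Ideal.mem_sup_right ?_)
  · rw [sh_apply]
    exact subst_mem ha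
  · have h3 := Ideal.mem_map_of_mem (sh (T : (Fin M → ℂ) →ₗ[ℂ] (Fin M → ℂ))) hb
    rw [Ideal.map_span, ← Set.range_comp] at h3
    have h4 : ((sh (T : (Fin M → ℂ) →ₗ[ℂ] (Fin M → ℂ))) ∘
        fun i => Pool.Agent.TH144.MB.lin (L' i)) = fun i => Pool.Agent.TH144.MB.lin (L i) := by
      funext i
      rw [Function.comp_apply, sh_apply, hL', hinv]
    rw [h4] at h3
    exact h3

end Pool.Agent.Run7.h971.AQ
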