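import Pool.Agent.Run7.h971.AQ.A

/-!
# Semi-invariant forms without common zeros, for finite commutative groups of linear maps
-/

set_option autoImplicit false

namespace Pool.Agent.Run7.h971.AQ

open MvPolynomial Module Pool.Agent.N212.FQ

variable {M : ℕ}

theorem core {G : Type} [CommGroup G] [Finite G] (ρ : Representation ℂ G (Fin M → ℂ))
    {I : Ideal (MvPolynomial (Fin M) ℂ)} (hom : ∀ p ∈ I, ∀ n, homogeneousComponent n p ∈ I)
    (stable : ∀ g, ∀ p ∈ I, subst (ρ g) p ∈ I)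
    (free : ∀ v : Fin M → ℂ, v ≠ 0 → (∀ p ∈ I, eval v p = 0) → ∀ (g : G) (μ : ℂ),
      ρ g v = μ • v → g ∈ scalars ρ)
    {r e : ℕ} (hr : Pool.Agent.TH144.MB.TopBound I r) (hre : r ≤ e) (χ : G →* ℂˣ)
    (hχ : ∀ (g : G) (c : ℂ), (∀ x, ρ g x = c • x) → (χ g : ℂ) = c ^ e)
    {y : Fin M → ℂ} (hy0 : y ≠ 0) (hy : ∀ p ∈ I, eval y p = 0) :
    ∃ F : MvPolynomial (Fin M) ℂ, F.IsHomogeneous e ∧
      (∀ g x, eval (ρ g x) F = χ g * eval x F) ∧ eval y F ≠ 0 := by
  classical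
  obtain ⟨b, c, hbc⟩ := exists_basis ρ
  let T : (Fin M → ℂ) ≃ₗ[ℂ] (Fin M → ℂ) := b.equivFun.symm
  have hT : ∀ g v, ρ g (T v) = T (fun i => (c i g : ℂ) * v i) := by
    intro g v
    have h : ∀ w, T w = ∑ i, w i • b i := fun w => b.equivFun_symm_apply w
    rw [h, h, map_sum]
    refine Finset.sum_congr rfl fun i _ => ?_
    rw [map_smul, hbc, smul_smul, mul_comm]
  obtain ⟨i0, hi0⟩ : ∃ i, y i ≠ 0 := by
    by_contra hc
    push Not at hc
    exact hy0 (funext hc)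
  have hsc : ∀ g : G, ∀ μ : ℂ, (∀ x, ρ g x = μ • x) → ∀ i, (c i g : ℂ) = μ := by
    intro g μ h i
    have h1 := h (b i)
    rw [hbc] at h1
    exact smul_left_injective ℂ (b.ne_zero i) h1
  let β : Fin M → G →* ℂˣ := fun i => c i * (c i0)⁻¹
  have hβ : ∀ i, ∀ g ∈ scalars ρ, β i g = 1 := by
    rintro i g ⟨μ, hμ⟩
    have h1 : c i g = c i0 g := Units.ext (by rw [hsc g μ hμ i, hsc g μ hμ i0])
    show c i g * (c i0 g)⁻¹ = 1
    rw [h1, mul_inv_cancel]
  let ψ : G →* ℂˣ := χ * (c i0 ^ e)⁻¹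
  have hψ : ∀ g ∈ scalars ρ, ψ g = 1 := by
    rintro g ⟨μ, hμ⟩
    have h1 : χ g = c i0 g ^ e := Units.ext (by
      rw [hχ g μ hμ, Units.val_pow_eq_pow_val, hsc g μ hμ i0])
    show χ g * (c i0 g ^ e)⁻¹ = 1
    rw [h1, mul_inv_cancel]
  let α : Fin M → G ⧸ scalars ρ →* ℂˣ := fun i =>
    QuotientGroup.lift (scalars ρ) (β i) fun g hg => hβ i g hg
  let χ' : G ⧸ scalars ρ →* ℂˣ := QuotientGroup.lift (scalars ρ) ψ fun g hg => hψ g hg
  have hα : ∀ i (g : G), (c i g : ℂ) = (c i0 g : ℂ) * (α i (g : G ⧸ scalars ρ) : ℂ) := by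
    intro i g
    have h1 : α i (g : G ⧸ scalars ρ) = c i g * (c i0 g)⁻¹ := rfl
    have h2 : c i g = c i0 g * α i (g : G ⧸ scalars ρ) := by
      rw [h1, mul_comm (c i g), mul_inv_cancel_left]
    rw [← Units.val_mul, ← h2]
  have hχ' : ∀ g : G, (χ g : ℂ) = (c i0 g : ℂ) ^ e * (χ' (g : G ⧸ scalars ρ) : ℂ) := by
    intro g
    have h1 : χ' (g : G ⧸ scalars ρ) = χ g * (c i0 g ^ e)⁻¹ := rfl
    have h2 : χ g = c i0 g ^ e * χ' (g : G ⧸ scalars ρ) := by
      rw [h1, mul_comm (χ g), mul_inv_cancel_left]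
    rw [← Units.val_pow_eq_pow_val, ← Units.val_mul, ← h2]
  have hmv : ∀ (g : G) (v : Fin M → ℂ), ρ g (T v) =
      (c i0 g : ℂ) • T (Pool.Agent.TH144.MB.mv α (g : G ⧸ scalars ρ) v) := by
    intro g v
    rw [hT, ← map_smul]
    congr 1
    funext i
    rw [Pi.smul_apply, smul_eq_mul]
    show (c i g : ℂ) * v i = c i0 g * ((α i (g : G ⧸ scalars ρ) : ℂ) * v i)
    rw [hα i g, mul_assoc]
  let S : Pool.Agent.TH144.MB.Sit ℂ (G ⧸ scalars ρ) M :=
    { I := newIdeal I T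
      hom := hom_newIdeal hom
      α := α
      stable := by
        intro v hv g'
        obtain ⟨g, rfl⟩ := QuotientGroup.mk_surjective g'
        refine zero_newIdeal.2 ?_
        have h1 : ∀ p ∈ I, eval (ρ g (T v)) p = 0 := by
          intro p hp
          rw [← eval_subst]
          exact (zero_newIdeal.1 hv) _ (stable g p hp)
        have h2 := Pool.Agent.TH144.MB.cone hom h1 (c i0 g : ℂ)⁻¹
        have h3 : (fun i => (c i0 g : ℂ)⁻¹ * (ρ g (T v)) i) =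
            T (Pool.Agent.TH144.MB.mv α (g : G ⧸ scalars ρ) v) := by
          funext i
          rw [hmv, Pi.smul_apply, smul_eq_mul, ← mul_assoc, inv_mul_cancel₀ (Units.ne_zero _),
            one_mul]
        rw [h3] at h2
        exact h2
      free := by
        intro v hv0 hv g' μ h
        obtain ⟨g, rfl⟩ := QuotientGroup.mk_surjective g'
        have h1 : Pool.Agent.TH144.MB.mv α (g : G ⧸ scalars ρ) v = μ • v := funext h
        refine (QuotientGroup.eq_one_iff g).2 ?_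
        refine free (T v) (by simpa using hv0) (zero_newIdeal.1 hv) g ((c i0 g : ℂ) * μ) ?_
        rw [hmv, h1, map_smul, smul_smul] }
  have _ := Fintype.ofFinite (G ⧸ scalars ρ)
  obtain ⟨m, h1, h2, h3⟩ := S.exists_mono (topBound_newIdeal hr) (y := T.symm y)
    (by simpa using hy0) (zero_newIdeal.2 (by simpa using hy)) χ' hre
  have h4 := Pool.Agent.TH144.MB.typ_monomial h2
  rw [h1] at h4
  refine ⟨subst (T.symm : (Fin M → ℂ) →ₗ[ℂ] (Fin M → ℂ)) (monomial m 1),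
    subst_isHomogeneous _ h4.1, ?_, ?_⟩
  · intro g x
    rw [eval_subst, eval_subst]
    have h5 : (T.symm : (Fin M → ℂ) →ₗ[ℂ] (Fin M → ℂ)) (ρ g x) =
        (c i0 g : ℂ) • Pool.Agent.TH144.MB.mv α (g : G ⧸ scalars ρ) (T.symm x) := by
      have h6 := hmv g (T.symm x)
      rw [LinearEquiv.apply_symm_apply] at h6
      rw [h6, map_smul]
      simp
    rw [h5, eval_smul_of_isHomogeneous h4.1, h4.2, hχ']
    simp only [LinearEquiv.coe_coe]
    ring
  · rw [eval_subst, Pool.Agent.TH144.MB.eval_mono]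
    exact h3

end Pool.Agent.Run7.h971.AQ
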