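import Pool.Agent.Run7.h971.AQ.B

/-!
# A quasi-multiplicative function on the characters
-/

set_option autoImplicit false

namespace Pool.Agent.Run7.h971.AQ

open Pool.Agent.TH144.MB

section

variable {M : ℕ} {A : Type} [CommGroup A]

/-- the value of a monomial in a commutative group -/
def tv (T : Fin M → A) (m : Fin M →₀ ℕ) : A := ∏ i, T i ^ m i

theorem tv_add (T : Fin M → A) (m m' : Fin M →₀ ℕ) : tv T (m + m') = tv T m * tv T m' := by
  simp only [tv, Finsupp.add_apply, pow_add, Finset.prod_mul_distrib]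

theorem tv_single (T : Fin M → A) (i : Fin M) : tv T (Finsupp.single i 1) = T i := by
  classical
  unfold tv
  rw [Finset.prod_eq_single i]
  · simp
  · intro j _ hj
    rw [Finsupp.single_eq_of_ne hj, pow_zero]
  · intro h
    exact absurd (Finset.mem_univ i) h

theorem mon_add {K : Type} [Field K] (y : Fin M → K) (m m' : Fin M →₀ ℕ) :
    mon (m + m') y = mon m y * mon m' y := by
  simp only [mon, Finsupp.add_apply, pow_add, Finset.prod_mul_distrib]

theorem mon_single {K : Type} [Field K] (y : Fin M → K) (i : Fin M) :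
    mon (Finsupp.single i 1) y = y i := by
  classical
  unfold mon
  rw [Finset.prod_eq_single i]
  · simp
  · intro j _ hj
    rw [Finsupp.single_eq_of_ne hj, pow_zero]
  · intro h
    exact absurd (Finset.mem_univ i) h

variable {X : Type} [CommGroup X]

/-- If `T` is constant on the monomials of degree `e ≥ 2 ρ + 1` with a given character, and all
characters occur in the degrees `≥ ρ`, then the quotients `T i / T j` are the values of a
homomorphism on the characters. -/
theorem exists_hom (α : Fin M → X) (y : Fin M → ℂ) {r e : ℕ}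
    (H : ∀ (ψ : X) (t : ℕ), r ≤ t →
      ∃ m : Fin M →₀ ℕ, m.degree = t ∧ tv α m = ψ ∧ mon m y ≠ 0)
    (he : 2 * r + 1 ≤ e) (χ : X) (T : Fin M → A) (c : A)
    (hT : ∀ m : Fin M →₀ ℕ, m.degree = e → tv α m = χ → mon m y ≠ 0 → tv T m = c) :
    ∃ h : X →* A, ∀ i j, y i ≠ 0 → y j ≠ 0 → h (α i * (α j)⁻¹) = T i * (T j)⁻¹ := by
  classical
  by_cases hy : ∃ i, y i ≠ 0
  swap
  · push Not at hy
    exact ⟨1, fun i j hi _ => absurd (hy i) hi⟩
  obtain ⟨i0, hi0⟩ := hy
  choose u hu1 hu2 hu3 using fun ψ => H ψ r le_rfl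
  choose w hw1 hw2 hw3 using fun ψ => H ψ (e - r - 1) (by omega)
  let f : X → A := fun ψ => tv T (u ψ)
  have h2 : ∀ i, y i ≠ 0 → ∀ φ : X, T i * tv T (w φ) * f (χ * (α i * φ)⁻¹) = c := by
    intro i hi φ
    have h3 := hT (Finsupp.single i 1 + w φ + u (χ * (α i * φ)⁻¹)) (by
      rw [map_add, map_add, hw1, hu1, Finsupp.degree_single]
      omega) (by
      rw [tv_add, tv_add, tv_single, hw2, hu2, mul_comm χ, mul_inv_cancel_left]) (by
      rw [mon_add, mon_add, mon_single]
      exact mul_ne_zero (mul_ne_zero hi (hw3 _)) (hu3 _))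
    rw [tv_add, tv_add, tv_single] at h3
    exact h3
  have h4 : ∀ i j, y i ≠ 0 → y j ≠ 0 → ∀ θ : X,
      f (θ * (α i * (α j)⁻¹)) = f θ * (T i * (T j)⁻¹) := by
    intro i j hi hj θ
    have h5 := h2 i hi (χ * θ⁻¹ * (α i)⁻¹)
    have h6 := h2 j hj (χ * θ⁻¹ * (α i)⁻¹)
    have h7 : χ * (α i * (χ * θ⁻¹ * (α i)⁻¹))⁻¹ = θ := by
      refine Additive.ofMul.injective ?_
      simp only [ofMul_mul, ofMul_inv]
      abel
    have h8 : χ * (α j * (χ * θ⁻¹ * (α i)⁻¹))⁻¹ = θ * (α i * (α j)⁻¹) := by
      refine Additive.ofMul.injective ?_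
      simp only [ofMul_mul, ofMul_inv]
      abel
    rw [h7] at h5
    rw [h8] at h6
    generalize tv T (w (χ * θ⁻¹ * (α i)⁻¹)) = W at h5 h6
    generalize f (θ * (α i * (α j)⁻¹)) = f' at h6 ⊢
    have h10 := h6.trans h5.symm
    refine mul_left_cancel (a := T j * W) ?_
    rw [h10]
    refine Additive.ofMul.injective ?_
    simp only [ofMul_mul, ofMul_inv]
    abel
  -- the subgroup of the characters at which `f` is quasi-multiplicative
  let K : Subgroup X :=
    { carrier := {γ | ∀ θ, f (θ * γ) * f 1 = f θ * f γ}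
      mul_mem' := by
        intro γ δ hγ hδ θ
        have h5 := hδ (θ * γ)
        have h6 := hδ γ
        have h7 := hγ θ
        rw [← mul_assoc]
        refine mul_right_cancel (b := f 1) ?_
        rw [h5, mul_right_comm, h7, mul_assoc, mul_assoc, h6]
      one_mem' := by
        intro θ
        rw [mul_one]
      inv_mem' := by
        intro γ hγ θ
        have h5 := hγ (θ * γ⁻¹)
        have h6 := hγ γ⁻¹
        rw [inv_mul_cancel_right] at h5
        rw [inv_mul_cancel] at h6
        refine mul_right_cancel (b := f γ) ?_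
        rw [mul_right_comm, ← h5, mul_assoc, mul_assoc, h6] }
  have hK : ∀ i j, y i ≠ 0 → y j ≠ 0 → α i * (α j)⁻¹ ∈ K := by
    intro i j hi hj θ
    have h5 := h4 i j hi hj 1
    rw [one_mul] at h5
    rw [h4 i j hi hj θ, h5]
    refine Additive.ofMul.injective ?_
    simp only [ofMul_mul, ofMul_inv]
    abel
  have hm : ∀ m : Fin M →₀ ℕ, mon m y ≠ 0 → tv α m * (α i0 ^ m.degree)⁻¹ ∈ K := by
    intro m hm
    have h5 : α i0 ^ m.degree = ∏ i, α i0 ^ m i := by
      rw [Finset.prod_pow_eq_pow_sum, Finsupp.degree_eq_sum]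
    have h6 : tv α m * (α i0 ^ m.degree)⁻¹ = ∏ i, (α i * (α i0)⁻¹) ^ m i := by
      rw [h5, ← Finset.prod_inv_distrib]
      unfold tv
      rw [← Finset.prod_mul_distrib]
      refine Finset.prod_congr rfl fun i _ => ?_
      rw [mul_pow, inv_pow]
    rw [h6]
    refine Subgroup.prod_mem _ fun i _ => ?_
    by_cases h7 : m i = 0
    · rw [h7, pow_zero]
      exact Subgroup.one_mem _
    · refine Subgroup.pow_mem _ (hK i i0 ?_ hi0) _
      intro h8
      refine hm (Finset.prod_eq_zero (Finset.mem_univ i) ?_)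
      rw [h8, zero_pow h7]
  have htop : ∀ ψ, ψ ∈ K := by
    intro ψ
    have h5 := Subgroup.mul_mem _ (hm _ (hu3 ψ)) (Subgroup.inv_mem _ (hm _ (hu3 1)))
    rw [hu1, hu1, hu2, hu2, one_mul, inv_inv, inv_mul_cancel_right] at h5
    exact h5
  refine ⟨{ toFun := fun γ => f γ * (f 1)⁻¹
            map_one' := mul_inv_cancel _
            map_mul' := ?_ }, ?_⟩
  · intro γ δ
    have h5 := htop δ γ
    have h6 : f (γ * δ) = f γ * f δ * (f 1)⁻¹ := by
      rw [← h5, mul_inv_cancel_right]
    rw [h6]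
    refine Additive.ofMul.injective ?_
    simp only [ofMul_mul, ofMul_inv]
    abel
  · intro i j hi hj
    have h5 := h4 i j hi hj 1
    rw [one_mul] at h5
    show f (α i * (α j)⁻¹) * (f 1)⁻¹ = _
    rw [h5, mul_comm (f 1), mul_inv_cancel_right]

end

end Pool.Agent.Run7.h971.AQ
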