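import Pool.Agent.Run7.h971.AQ.C

/-!
# Separation of points and of tangent vectors in large degrees
-/

set_option autoImplicit false

namespace Pool.Agent.Run7.h971.AQ

open MvPolynomial Pool.Agent.TH144.MB

variable {M : ℕ} {G : Type} [CommGroup G] [Finite G] (S : Sit ℂ G M)

theorem occurs {r : ℕ} (hr : TopBound S.I r) {y : Fin M → ℂ} (hy0 : y ≠ 0)
    (hy : ∀ p ∈ S.I, eval y p = 0) (ψ : G →* ℂˣ) (t : ℕ) (ht : r ≤ t) :
    ∃ m : Fin M →₀ ℕ, m.degree = t ∧ tv S.α m = ψ ∧ mon m y ≠ 0 := by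
  have _ := Fintype.ofFinite G
  exact S.exists_mono hr hy0 hy ψ ht

/-- a homomorphism on the characters is the evaluation at an element of the group -/
theorem exists_elt (h : (G →* ℂˣ) →* ℂˣ) : ∃ g : G, ∀ ψ : G →* ℂˣ, h ψ = ψ g := by
  haveI : NeZero (Monoid.exponent G) := ⟨Monoid.exponent_ne_zero_of_finite⟩
  refine ⟨CommGroup.monoidHomMonoidHomEquiv G ℂ h, fun ψ => ?_⟩
  rw [CommGroup.apply_monoidHomMonoidHomEquiv]

theorem mon_ratio {y y' : Fin M → ℂ} (T : Fin M → ℂˣ)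
    (hT : ∀ i, y i ≠ 0 → (T i : ℂ) * y i = y' i) {m : Fin M →₀ ℕ} (hm : mon m y ≠ 0) :
    ((tv T m : ℂˣ) : ℂ) * mon m y = mon m y' := by
  unfold tv mon
  rw [Units.coe_prod, ← Finset.prod_mul_distrib]
  refine Finset.prod_congr rfl fun i _ => ?_
  by_cases h1 : m i = 0
  · simp [h1]
  · have h2 : y i ≠ 0 := by
      intro h3
      exact hm (Finset.prod_eq_zero (Finset.mem_univ i) (by rw [h3, zero_pow h1]))
    rw [Units.val_pow_eq_pow_val, ← mul_pow, hT i h2]

theorem points_large {r e : ℕ} (hr : TopBound S.I r) (he : 2 * r + 1 ≤ e) {y y' : Fin M → ℂ}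
    (hy0 : y ≠ 0) (hy : ∀ p ∈ S.I, eval y p = 0) (hy'0 : y' ≠ 0)
    (hy' : ∀ p ∈ S.I, eval y' p = 0) (hne : ∀ g, mv S.α g y' ∉ Submodule.span ℂ {y})
    (χ : G →* ℂˣ) : ∃ F, Typ S.α χ e F ∧ eval y F ≠ 0 ∧ eval y' F = 0 := by
  classical
  have _ := Fintype.ofFinite G
  by_cases h1 : ∃ i, y i ≠ 0 ∧ y' i = 0
  · obtain ⟨i, hi, hi'⟩ := h1
    obtain ⟨m, hm, hmc, hmy⟩ := S.exists_mono hr hy0 hy (χ * (S.α i)⁻¹) (t := e - 1) (by omega)
    have h2 := (typ_monomial hmc).X_mul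
    rw [hm, Nat.sub_add_cancel (by omega)] at h2
    refine ⟨_, h2, ?_, ?_⟩
    · rw [map_mul, eval_X, eval_mono]
      exact mul_ne_zero hi hmy
    · rw [map_mul, eval_X, hi', zero_mul]
  by_cases h2 : ∃ i, y i = 0 ∧ y' i ≠ 0
  · obtain ⟨i, hi, hi'⟩ := h2
    obtain ⟨m, hm, hmc, hmy⟩ := S.exists_mono hr hy'0 hy' (χ * (S.α i)⁻¹) (t := e - 1) (by omega)
    have h2 := (typ_monomial hmc).X_mul
    rw [hm, Nat.sub_add_cancel (by omega)] at h2
    obtain ⟨m', hm', hmc', hmy'⟩ := S.exists_mono hr hy0 hy χ (t := e) (by omega)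
    have h3 := typ_monomial hmc'
    rw [hm'] at h3
    have h4 : eval y' (X i * monomial m (1 : ℂ)) ≠ 0 := by
      rw [map_mul, eval_X, eval_mono]
      exact mul_ne_zero hi' hmy
    refine ⟨monomial m' 1 - C (eval y' (monomial m' (1 : ℂ))
      / eval y' (X i * monomial m (1 : ℂ))) * (X i * monomial m 1), h3.sub (h2.C_mul _), ?_, ?_⟩
    · rw [map_sub, map_mul, map_mul (eval y) (X i), eval_X, hi, zero_mul, mul_zero, sub_zero,
        eval_mono]
      exact hmy'
    · rw [map_sub, map_mul (eval y') (C _), eval_C, div_mul_cancel₀ _ h4, sub_self]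
  · have hs : ∀ i, y' i = 0 ↔ y i = 0 := by
      push Not at h1 h2
      intro i
      constructor
      · intro h
        by_contra h3
        exact h1 i h3 h
      · intro h
        exact h2 i h
    by_contra hcon
    push Not at hcon
    let T : Fin M → ℂˣ := fun i =>
      if h : y i ≠ 0 then Units.mk0 (y' i / y i) (div_ne_zero (fun h3 => h ((hs i).1 h3)) h) else 1
    have hT : ∀ i, y i ≠ 0 → (T i : ℂ) * y i = y' i := by
      intro i hi
      simp only [T, dif_pos hi, Units.val_mk0]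
      exact div_mul_cancel₀ _ hi
    obtain ⟨m0, hm0, hmc0, hmy0⟩ := occurs S hr hy0 hy χ e (by omega)
    have hy'm : ∀ m : Fin M →₀ ℕ, mon m y ≠ 0 → mon m y' ≠ 0 := by
      intro m hm h3
      rw [← mon_ratio T hT hm] at h3
      exact (mul_ne_zero (Units.ne_zero _) hm) h3
    have hconst : ∀ m : Fin M →₀ ℕ, m.degree = e → tv S.α m = χ → mon m y ≠ 0 →
        tv T m = tv T m0 := by
      intro m hm hmc hmy
      have h4 := typ_monomial (α := S.α) hmc
      rw [hm] at h4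
      have h5 := typ_monomial (α := S.α) hmc0
      rw [hm0] at h5
      have h6 : eval y' (C (mon m0 y') * monomial m 1 - C (mon m y') * monomial m0 (1 : ℂ)) = 0 := by
        rw [map_sub, map_mul, map_mul, eval_C, eval_C, eval_mono, eval_mono]
        ring
      have h7 : eval y (C (mon m0 y') * monomial m 1 - C (mon m y') * monomial m0 (1 : ℂ)) = 0 := by
        by_contra h8
        exact hcon _ ((h4.C_mul (mon m0 y')).sub (h5.C_mul (mon m y'))) h8 h6
      rw [map_sub, map_mul, map_mul, eval_C, eval_C, eval_mono, eval_mono,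
        ← mon_ratio T hT hmy0, ← mon_ratio T hT hmy] at h7
      refine Units.ext ?_
      have h8 : (((tv T m0 : ℂˣ) : ℂ) - ((tv T m : ℂˣ) : ℂ)) * (mon m y * mon m0 y) = 0 := by
        linear_combination h7
      rcases mul_eq_zero.1 h8 with h | h
      · exact (sub_eq_zero.1 h).symm
      · exact absurd h (mul_ne_zero hmy hmy0)
    obtain ⟨h, hh⟩ := exists_hom S.α y (occurs S hr hy0 hy) he χ T (tv T m0) hconst
    obtain ⟨g, hg⟩ := exists_elt h
    obtain ⟨i0, hi0⟩ : ∃ i, y i ≠ 0 := by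
      by_contra hc
      push Not at hc
      exact hy0 (funext hc)
    refine hne g⁻¹ (Submodule.mem_span_singleton.2 ⟨(T i0 : ℂ) * (S.α i0 g⁻¹ : ℂ), funext fun i => ?_⟩)
    rw [Pi.smul_apply, smul_eq_mul]
    show _ = (S.α i g⁻¹ : ℂ) * y' i
    by_cases hi : y i = 0
    · rw [hi, (hs i).2 hi, mul_zero, mul_zero]
    · rw [← hT i hi]
      have h3 := hh i i0 hi hi0
      rw [hg] at h3
      have h4 : S.α i g * (S.α i0 g)⁻¹ = T i * (T i0)⁻¹ := h3
      have h5 : T i0 * (S.α i0 g)⁻¹ = (S.α i g)⁻¹ * T i := by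
        refine mul_left_cancel (a := S.α i g * (T i0)⁻¹) ?_
        have h6 : S.α i g * (T i0)⁻¹ * (T i0 * (S.α i0 g)⁻¹) = S.α i g * (S.α i0 g)⁻¹ := by
          rw [mul_assoc, inv_mul_cancel_left]
        have h7 : S.α i g * (T i0)⁻¹ * ((S.α i g)⁻¹ * T i) = T i * (T i0)⁻¹ := by
          rw [mul_comm (S.α i g), mul_assoc, mul_inv_cancel_left, mul_comm]
        rw [h6, h7, h4]
      have h6 := congrArg (fun u : ℂˣ => (u : ℂ)) h5
      simp only [Units.val_mul] at h6
      rw [map_inv, map_inv, h6]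
      ring

theorem tangents_large {r e : ℕ} (hr : TopBound S.I r) (he : 2 * r + 1 ≤ e)
    {y u : Fin M → ℂ} (hy0 : y ≠ 0) (hy : ∀ p ∈ S.I, eval y p = 0)
    (hne : u ∉ Submodule.span ℂ {y}) (χ : G →* ℂˣ) :
    ∃ F, Typ S.α χ e F ∧ eval y F = 0 ∧ dv F y u ≠ 0 := by
  classical
  have _ := Fintype.ofFinite G
  by_contra hcon
  push Not at hcon
  have h1 : ∀ i, y i = 0 → u i = 0 := by
    intro i hi
    obtain ⟨m, hm, hmc, hmy⟩ := S.exists_mono hr hy0 hy (χ * (S.α i)⁻¹) (t := e - 1) (by omega)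
    have h2 := (typ_monomial hmc).X_mul
    rw [hm, Nat.sub_add_cancel (by omega)] at h2
    have h3 := hcon _ h2 (by rw [map_mul, eval_X, hi, zero_mul])
    rw [dv_X_mul, hi, zero_mul, add_zero, eval_mono] at h3
    rcases mul_eq_zero.1 h3 with h | h
    · exact absurd h hmy
    · exact h
  obtain ⟨ξ, hξ⟩ : ∃ ξ : Fin M → ℂ, u = fun i => ξ i * y i := by
    refine ⟨fun i => u i / y i, funext fun i => ?_⟩
    by_cases hi : y i = 0
    · rw [h1 i hi, hi, mul_zero]
    · rw [div_mul_cancel₀ _ hi]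
  obtain ⟨i0, hi0⟩ : ∃ i, y i ≠ 0 := by
    by_contra hc
    push Not at hc
    exact hy0 (funext hc)
  obtain ⟨m0, hm0, hmc0, hmy0⟩ := S.exists_mono hr hy0 hy χ (t := e) (by omega)
  have h3 : ∀ m : Fin M →₀ ℕ, m.degree = e → chr S.α m = χ → mon m y ≠ 0 →
      ∑ i, (m i : ℂ) * ξ i = ∑ i, (m0 i : ℂ) * ξ i := by
    intro m hm hmc hmy
    have h4 := typ_monomial hmc
    rw [hm] at h4
    have h5 := typ_monomial hmc0
    rw [hm0] at h5
    have h6 := hcon _ ((h4.C_mul (mon m0 y)).sub (h5.C_mul (mon m y))) (by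
      rw [map_sub, map_mul, map_mul, eval_C, eval_C, eval_mono, eval_mono]; ring)
    rw [dv_sub, dv_C_mul, dv_C_mul, hξ, dv_monomial, dv_monomial] at h6
    have h7 : (∑ i, (m i : ℂ) * ξ i - ∑ i, (m0 i : ℂ) * ξ i) * (mon m y * mon m0 y) = 0 := by
      linear_combination h6
    rcases mul_eq_zero.1 h7 with h | h
    · exact sub_eq_zero.1 h
    · exact absurd h (mul_ne_zero hmy hmy0)
  have htv : ∀ m : Fin M →₀ ℕ, Multiplicative.toAdd (tv (fun i => Multiplicative.ofAdd (ξ i)) m) =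
      ∑ i, (m i : ℂ) * ξ i := by
    intro m
    unfold tv
    rw [toAdd_prod]
    refine Finset.sum_congr rfl fun i _ => ?_
    rw [toAdd_pow, toAdd_ofAdd, nsmul_eq_mul]
  obtain ⟨h, hh⟩ := exists_hom S.α y (occurs S hr hy0 hy) he χ
    (fun i => Multiplicative.ofAdd (ξ i)) (tv (fun i => Multiplicative.ofAdd (ξ i)) m0) (by
      intro m hm hmc hmy
      refine Multiplicative.toAdd.injective ?_
      rw [htv, htv]
      exact h3 m hm hmc hmy)
  have hfin : Finite (G →* ℂˣ) := by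
    haveI : NeZero (Monoid.exponent G) := ⟨Monoid.exponent_ne_zero_of_finite⟩
    exact Finite.of_equiv G
      (CommGroup.monoidHom_mulEquiv_of_hasEnoughRootsOfUnity G ℂ).some.symm.toEquiv
  have htriv : ∀ ψ, h ψ = 1 := by
    intro ψ
    have h4 : h ψ ^ Nat.card (G →* ℂˣ) = 1 := by rw [← map_pow, pow_card_eq_one', map_one]
    have h5 := congrArg Multiplicative.toAdd h4
    rw [toAdd_pow, toAdd_one, nsmul_eq_mul] at h5
    rcases mul_eq_zero.1 h5 with h | h
    · exact absurd h (by exact_mod_cast Nat.card_pos.ne')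
    · exact Multiplicative.toAdd.injective h
  refine hne (Submodule.mem_span_singleton.2 ⟨ξ i0, funext fun i => ?_⟩)
  rw [Pi.smul_apply, smul_eq_mul, hξ]
  show ξ i0 * y i = ξ i * y i
  by_cases hi : y i = 0
  · rw [hi, mul_zero, mul_zero]
  · have h4 := hh i i0 hi hi0
    rw [htriv] at h4
    have h5 := congrArg Multiplicative.toAdd h4
    rw [toAdd_one, toAdd_mul, toAdd_inv, toAdd_ofAdd, toAdd_ofAdd] at h5
    have h6 : ξ i = ξ i0 := by linear_combination -h5
    rw [h6]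

end Pool.Agent.Run7.h971.AQ
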