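import Pool.Agent.Run7.h971.AQ.D

/-!
# Elements of the torus which act by a constant on the semi-invariant forms of a given degree
-/

set_option autoImplicit false

namespace Pool.Agent.Run7.h971.AQ

open MvPolynomial Pool.Agent.TH144.MB

theorem aux1 {G : Type} [CommGroup G] (a χ : G →* ℂˣ) : a * (χ * a⁻¹) = χ := by
  refine MonoidHom.ext fun g => ?_
  rw [MonoidHom.mul_apply, MonoidHom.mul_apply, MonoidHom.inv_apply, mul_comm (χ g),
    mul_inv_cancel_left]

variable {M : ℕ} {G : Type} [CommGroup G] [Finite G] (S : Sit ℂ G M)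

omit [Finite G] in
/-- a point of minimal support inside the support of `y` -/
theorem minimal {y : Fin M → ℂ} (hy0 : y ≠ 0) (hy : ∀ p ∈ S.I, eval y p = 0) :
    ∃ w : Fin M → ℂ, w ≠ 0 ∧ (∀ p ∈ S.I, eval w p = 0) ∧ (∀ i, y i = 0 → w i = 0) ∧
      ∀ v : Fin M → ℂ, (∀ p ∈ S.I, eval v p = 0) → (∀ i, w i = 0 → v i = 0) →
        (∃ i, w i ≠ 0 ∧ v i = 0) → v = 0 := by
  classical
  let P : ℕ → Prop := fun k => ∃ w : Fin M → ℂ, w ≠ 0 ∧ (∀ p ∈ S.I, eval w p = 0) ∧
    (∀ i, y i = 0 → w i = 0) ∧ (Finset.univ.filter fun i => w i ≠ 0).card = k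
  have hP : ∃ k, P k := ⟨_, y, hy0, hy, fun _ h => h, rfl⟩
  obtain ⟨w, hw0, hw, hwy, hwk⟩ := Nat.find_spec hP
  refine ⟨w, hw0, hw, hwy, ?_⟩
  intro v hv hvw ⟨i, hi, hi2⟩
  by_contra hv0
  have h1 : Nat.find hP ≤ (Finset.univ.filter fun i => v i ≠ 0).card :=
    Nat.find_min' hP ⟨v, hv0, hv, fun i hi => hvw i (hwy i hi), rfl⟩
  rw [← hwk] at h1
  have h2 : (Finset.univ.filter fun i => v i ≠ 0).card
      < (Finset.univ.filter fun i => w i ≠ 0).card := by
    apply Finset.card_lt_card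
    rw [Finset.ssubset_iff_of_subset]
    · exact ⟨i, by simp [hi], by simp [hi2]⟩
    · intro i hi
      rw [Finset.mem_filter] at hi ⊢
      exact ⟨hi.1, fun h => hi.2 (hvw i h)⟩
  omega

omit [Finite G] in
/-- division by a variable at the points of minimal support -/
theorem reduce {r : ℕ} (hr : TopBound S.I r) {w : Fin M → ℂ}
    (hmin : ∀ v : Fin M → ℂ, (∀ p ∈ S.I, eval v p = 0) → (∀ i, w i = 0 → v i = 0) →
      (∃ i, w i ≠ 0 ∧ v i = 0) → v = 0)
    {t : ℕ} (ht : r ≤ t) {i0 : Fin M} (hi0 : w i0 ≠ 0) {F : MvPolynomial (Fin M) ℂ}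
    (hF : F.IsHomogeneous (1 + t)) :
    ∃ q : MvPolynomial (Fin M) ℂ, q.IsHomogeneous t ∧ ∀ v : Fin M → ℂ,
      (∀ p ∈ S.I, eval v p = 0) → (∀ i, w i = 0 → v i = 0) → eval v F = v i0 * eval v q := by
  classical
  let L : Fin M → Fin M → ℂ := fun i => if w i = 0 then Pi.single i 1 else Pi.single i0 1
  have hlin : ∀ i : Fin M, lin (Pi.single i 1) = (X i : MvPolynomial (Fin M) ℂ) := by
    intro i
    unfold lin
    rw [Finset.sum_eq_single i]
    · simp
    · intro j _ hj
      rw [Pi.single_eq_of_ne hj, map_zero, zero_mul]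
    · intro h; exact absurd (Finset.mem_univ i) h
  have hv : ∀ v : Fin M → ℂ, (∀ p ∈ S.I, eval v p = 0) → (∀ i, eval v (lin (L i)) = 0) →
      v = 0 := by
    intro v hv1 hv2
    refine hmin v hv1 (fun i hi => ?_) ⟨i0, hi0, ?_⟩
    · have := hv2 i
      simp only [L, if_pos hi, hlin, eval_X] at this
      exact this
    · have := hv2 i0
      simp only [L, if_neg hi0, hlin, eval_X] at this
      exact this
  have h1 := hr M L hv (1 + t) (by omega) _ hF
  set I : Ideal (MvPolynomial (Fin M) ℂ) := S.I ⊔ Ideal.span (X '' {i | w i = 0}) with hI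
  have hIhom : Hom I := by
    have h2 : ∀ s : Finset (Fin M), Hom (S.I ⊔ Ideal.span (X '' (s : Set (Fin M)))) := by
      intro s
      induction s using Finset.induction_on with
      | empty =>
        rw [Finset.coe_empty, Set.image_empty, Ideal.span_empty, sup_bot_eq]
        exact S.hom
      | insert i s _ ih =>
        have h3 := hom_sup ih (isHomogeneous_X ℂ i)
        rwa [sup_assoc, ← Ideal.span_union, ← Set.image_singleton, ← Set.image_union,
          Set.union_singleton, ← Finset.coe_insert] at h3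
    have h4 := h2 (Finset.univ.filter fun i => w i = 0)
    rwa [Finset.coe_filter, show {i | i ∈ Finset.univ ∧ w i = 0} = {i | w i = 0} by simp] at h4
  have h3 : S.I ⊔ Ideal.span (Set.range fun i => lin (L i)) ≤ I ⊔ Ideal.span {X i0} := by
    refine sup_le (le_sup_left.trans le_sup_left) ?_
    rw [Ideal.span_le]
    rintro _ ⟨i, rfl⟩
    by_cases hi : w i = 0
    · simp only [L, if_pos hi, hlin]
      exact Ideal.mem_sup_left (Ideal.mem_sup_right (Ideal.subset_span ⟨i, hi, rfl⟩))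
    · simp only [L, if_neg hi, hlin]
      exact Ideal.mem_sup_right (Ideal.mem_span_singleton_self _)
  obtain ⟨q, hq, hmq⟩ := mem_sup_hom hIhom (isHomogeneous_X ℂ i0) hF (h3 h1)
  refine ⟨q, hq, fun v hv1 hv2 => ?_⟩
  have h5 : I ≤ RingHom.ker (eval v) := by
    rw [hI]
    refine sup_le (fun p hp => RingHom.mem_ker.2 (hv1 p hp)) ?_
    rw [Ideal.span_le]
    rintro _ ⟨i, hi, rfl⟩
    refine RingHom.mem_ker.2 ?_
    rw [eval_X]
    exact hv2 i hi
  have h6 := RingHom.mem_ker.1 (h5 hmq)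
  rw [map_sub, sub_eq_zero, map_mul, eval_X] at h6
  exact h6

omit [Finite G] in
theorem lam_mul [Fintype G] {w : Fin M → ℂ} {i0 : Fin M} {F q : MvPolynomial (Fin M) ℂ}
    (h : ∀ g, eval (mv S.α g w) F = mv S.α g w i0 * eval (mv S.α g w) q) (ψ : G →* ℂˣ) :
    Lam S.α (ψ * S.α i0) w F = w i0 * Lam S.α ψ w q := by
  unfold Lam
  rw [Finset.mul_sum]
  refine Finset.sum_congr rfl fun g _ => ?_
  rw [h, MonoidHom.mul_apply, mul_inv, Units.val_mul]
  simp only [mv]
  have h6 : (((S.α i0 g)⁻¹ : ℂˣ) : ℂ) * (S.α i0 g : ℂ) = 1 := Units.inv_mul _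
  linear_combination ((((ψ g)⁻¹ : ℂˣ) : ℂ) * (w i0 * eval (mv S.α g w) q)) * h6

theorem mon_tv (T : Fin M → ℂˣ) (w : Fin M → ℂ) (m : Fin M →₀ ℕ) :
    mon m (fun i => (T i : ℂ) * w i) = ((tv T m : ℂˣ) : ℂ) * mon m w := by
  unfold tv mon
  simp only [mul_pow, Finset.prod_mul_distrib, Units.coe_prod, Units.val_pow_eq_pow_val]

/-- Let `T` be in the torus and let all monomials of degree `e` with the character `χ` which do not
vanish at `y` have the same value at `T`. Then `T` acts on the nonzero coordinates of `y` like an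
element of `G` times a scalar. -/
theorem torus {r e b : ℕ} (hr : TopBound S.I r)
    (hb : ∀ v : Fin M → ℂ, (∀ p ∈ S.I, ∀ t ≤ b, p.IsHomogeneous t → eval v p = 0) →
      ∀ p ∈ S.I, eval v p = 0)
    (he : r + b ≤ e) (he1 : r + 1 ≤ e) {y : Fin M → ℂ} (hy0 : y ≠ 0)
    (hy : ∀ p ∈ S.I, eval y p = 0) (χ : G →* ℂˣ) (T : Fin M → ℂˣ) (c : ℂˣ)
    (hT : ∀ m : Fin M →₀ ℕ, m.degree = e → tv S.α m = χ → mon m y ≠ 0 → tv T m = c) :
    ∃ (g : G) (s : ℂ), ∀ i, y i ≠ 0 → (T i : ℂ) = s * (S.α i g : ℂ) := by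
  classical
  have _ := Fintype.ofFinite G
  have hfin : Finite (G →* ℂˣ) := by
    haveI : NeZero (Monoid.exponent G) := ⟨Monoid.exponent_ne_zero_of_finite⟩
    exact Finite.of_equiv G
      (CommGroup.monoidHom_mulEquiv_of_hasEnoughRootsOfUnity G ℂ).some.symm.toEquiv
  have _ := Fintype.ofFinite (G →* ℂˣ)
  obtain ⟨w, hw0, hw, hwy, hmin⟩ := minimal S hy0 hy
  have good : ∀ m : Fin M →₀ ℕ, mon m w ≠ 0 → mon m y ≠ 0 := by
    intro m hm
    refine Finset.prod_ne_zero_iff.2 fun i _ => ?_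
    by_cases h1 : m i = 0
    · rw [h1, pow_zero]
      exact one_ne_zero
    · refine pow_ne_zero _ fun h2 => hm (Finset.prod_eq_zero (Finset.mem_univ i) ?_)
      rw [hwy i h2, zero_pow h1]
  set w' : Fin M → ℂ := fun i => (T i : ℂ) * w i with hw'def
  have hsupp : ∀ i, w i = 0 → w' i = 0 := fun i hi => by
    rw [hw'def]
    simp only [hi, mul_zero]
  -- the point `T w` is in the cone
  have hw' : ∀ p ∈ S.I, eval w' p = 0 := by
    refine hb w' fun p hp t ht hpt => ?_
    choose v hv1 hv2 hv3 using fun ψ : G →* ℂˣ => occurs S hr hy0 hy (χ * ψ⁻¹) (e - t) (by omega)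
    have hTm : ∀ m ∈ p.support, mon m w ≠ 0 → tv T m * tv T (v (chr S.α m)) = c := by
      intro m hm hmw
      have hmt : m.degree = t := by
        by_contra h
        exact (MvPolynomial.mem_support_iff.1 hm) (hpt.coeff_eq_zero h)
      rw [← tv_add]
      refine hT _ ?_ ?_ ?_
      · rw [map_add, hmt, hv1]
        omega
      · rw [tv_add, hv2]
        exact aux1 _ _
      · rw [mon_add]
        exact mul_ne_zero (good m hmw) (hv3 _)
    have hLam : ∀ ψ, Lam S.α ψ w p = 0 := by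
      intro ψ
      unfold Lam
      refine Finset.sum_eq_zero fun g _ => ?_
      rw [S.stable w hw g p hp, mul_zero]
    have h1 : (Fintype.card G : ℂ) * eval w' p =
        ∑ ψ : G →* ℂˣ, ((c * (tv T (v ψ))⁻¹ : ℂˣ) : ℂ) * Lam S.α ψ w p := by
      simp only [Lam_eq, Finset.mul_sum]
      rw [Finset.sum_comm, eval_eq_mon, Finset.mul_sum]
      refine Finset.sum_congr rfl fun m hm => ?_
      rw [Finset.sum_eq_single (chr S.α m)]
      · rw [if_pos rfl, hw'def, mon_tv]
        by_cases hmw : mon m w = 0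
        · rw [hmw]
          ring
        · have h2 : c * (tv T (v (chr S.α m)))⁻¹ = tv T m := by
            rw [← hTm m hm hmw, mul_inv_cancel_right]
          rw [h2]
          ring
      · intro ψ _ hψ
        rw [if_neg hψ.symm, mul_zero]
      · intro h
        exact absurd (Finset.mem_univ _) h
    have h2 : (Fintype.card G : ℂ) * eval w' p = 0 := by
      rw [h1]
      exact Finset.sum_eq_zero fun ψ _ => by rw [hLam, mul_zero]
    rcases mul_eq_zero.1 h2 with h | h
    · exact absurd h (Nat.cast_ne_zero.2 Fintype.card_ne_zero)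
    · exact h
  obtain ⟨i0, hi0⟩ : ∃ i, w i ≠ 0 := by
    by_contra hc
    push Not at hc
    exact hw0 (funext hc)
  have hw'0 : w' ≠ 0 := by
    intro h
    have h1 := congrFun h i0
    exact (mul_ne_zero (Units.ne_zero (T i0)) hi0) h1
  -- the functionals at `w'` and `w` are proportional in the degrees `e + k`
  have hstep : ∀ k : ℕ, ∃ (ψ : G →* ℂˣ) (d : ℂ), d ≠ 0 ∧ ∀ F : MvPolynomial (Fin M) ℂ,
      F.IsHomogeneous (k + e) → Lam S.α ψ w' F = d * Lam S.α ψ w F := by
    intro k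
    induction k with
    | zero =>
      refine ⟨χ, c, Units.ne_zero c, fun F hF => ?_⟩
      rw [Lam_eq, Lam_eq, Finset.mul_sum]
      refine Finset.sum_congr rfl fun m hm => ?_
      split_ifs with h
      · rw [hw'def, mon_tv]
        by_cases hmw : mon m w = 0
        · rw [hmw]
          ring
        · have hme : m.degree = e := by
            by_contra h'
            refine (MvPolynomial.mem_support_iff.1 hm) (hF.coeff_eq_zero ?_)
            rw [zero_add]
            exact h'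
          rw [hT m hme h (good m hmw)]
          ring
      · rw [mul_zero]
    | succ k ih =>
      obtain ⟨ψ, d, hd, h⟩ := ih
      refine ⟨ψ * S.α i0, d * (T i0 : ℂ), mul_ne_zero hd (Units.ne_zero _), fun F hF => ?_⟩
      obtain ⟨q, hq, hqF⟩ := reduce S hr hmin (t := k + e) (by omega) hi0 (F := F) (by
        have h1 : 1 + (k + e) = k + 1 + e := by omega
        rw [h1]
        exact hF)
      have hm1 : ∀ v : Fin M → ℂ, (∀ p ∈ S.I, eval v p = 0) → (∀ i, w i = 0 → v i = 0) →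
          Lam S.α (ψ * S.α i0) v F = v i0 * Lam S.α ψ v q := by
        intro v hv1 hv2
        refine lam_mul S (fun g => hqF _ (S.stable v hv1 g) fun i hi => ?_) ψ
        show (S.α i g : ℂ) * v i = 0
        rw [hv2 i hi, mul_zero]
      rw [hm1 w' hw' hsupp, hm1 w hw fun i hi => hi, h q hq]
      show (T i0 : ℂ) * w i0 * (d * Lam S.α ψ w q) = _
      ring
  -- `T w` is in the orbit of `w`
  obtain ⟨g, hg⟩ : ∃ g, mv S.α g w' ∈ Submodule.span ℂ {w} := by
    by_contra hcon
    push Not at hcon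
    obtain ⟨ψ, d, hd, h⟩ := hstep (Fintype.card G)
    obtain ⟨F, h1, h2, h3⟩ := S.points hr hw0 hw hw'0 hw' hcon ψ (t := Fintype.card G + e)
      (by omega) (by omega)
    have h4 := h F h1.1
    have h5 : ∀ v, Lam S.α ψ v F = Fintype.card G * eval v F := by
      intro v
      unfold Lam
      rw [Finset.sum_congr rfl fun g _ => by
        rw [h1.2, ← mul_assoc, Units.inv_mul, one_mul]]
      rw [Finset.sum_const, Finset.card_univ, nsmul_eq_mul]
    rw [h5, h5, h3, mul_zero] at h4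
    have h6 : (Fintype.card G : ℂ) ≠ 0 := Nat.cast_ne_zero.2 Fintype.card_ne_zero
    exact (mul_ne_zero hd (mul_ne_zero h6 h2)) h4.symm
  obtain ⟨a, ha⟩ := Submodule.mem_span_singleton.1 hg
  -- the coordinates of `w`
  have hTw : ∀ i, w i ≠ 0 → (T i : ℂ) = a * (S.α i g⁻¹ : ℂ) := by
    intro i hi
    have h1 := congrFun ha i
    have h2 : a * w i = (S.α i g : ℂ) * ((T i : ℂ) * w i) := h1
    have h3 : a = (S.α i g : ℂ) * (T i : ℂ) := by
      refine mul_right_cancel₀ hi ?_
      rw [h2, mul_assoc]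
    rw [h3, map_inv]
    have h6 : (((S.α i g)⁻¹ : ℂˣ) : ℂ) * (S.α i g : ℂ) = 1 := Units.inv_mul _
    linear_combination (-(T i : ℂ)) * h6
  have htv : ∀ m : Fin M →₀ ℕ, mon m w ≠ 0 →
      ((tv T m : ℂˣ) : ℂ) = a ^ m.degree * (chr S.α m g⁻¹ : ℂ) := by
    intro m hm
    rw [chr_apply, Units.coe_prod]
    unfold tv
    rw [Units.coe_prod, Finsupp.degree_eq_sum, ← Finset.prod_pow_eq_pow_sum,
      ← Finset.prod_mul_distrib]
    refine Finset.prod_congr rfl fun i _ => ?_
    rw [Units.val_pow_eq_pow_val, Units.val_pow_eq_pow_val, ← mul_pow]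
    by_cases h1 : m i = 0
    · rw [h1, pow_zero, pow_zero]
    · rw [hTw i]
      intro h2
      exact hm (Finset.prod_eq_zero (Finset.mem_univ i) (by rw [h2, zero_pow h1]))
  obtain ⟨m0, hm0, hmc0, hmw0⟩ := occurs S hr hw0 hw χ e (by omega)
  have hc : (c : ℂ) = a ^ e * (χ g⁻¹ : ℂ) := by
    rw [← hT m0 hm0 hmc0 (good m0 hmw0), htv m0 hmw0, hm0]
    have h1 : chr S.α m0 = χ := hmc0
    rw [h1]
  refine ⟨g⁻¹, a, fun i hi => ?_⟩
  obtain ⟨u, hu1, hu2, hu3⟩ := occurs S hr hw0 hw (χ * (S.α i)⁻¹) (e - 1) (by omega)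
  have h1 := hT (Finsupp.single i 1 + u) (by
    rw [map_add, hu1, Finsupp.degree_single]
    omega) (by
    rw [tv_add, tv_single, hu2]
    exact aux1 _ _) (by
    rw [mon_add, mon_single]
    exact mul_ne_zero hi (good u hu3))
  rw [tv_add, tv_single] at h1
  have h2 := congrArg (fun x : ℂˣ => (x : ℂ)) h1
  simp only [Units.val_mul] at h2
  have h3 : (chr S.α u g⁻¹ : ℂ) * (S.α i g⁻¹ : ℂ) = (χ g⁻¹ : ℂ) := by
    have h4 : chr S.α u = χ * (S.α i)⁻¹ := hu2
    rw [h4, MonoidHom.mul_apply, MonoidHom.inv_apply, Units.val_mul, mul_assoc]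
    have h6 : (((S.α i g⁻¹)⁻¹ : ℂˣ) : ℂ) * (S.α i g⁻¹ : ℂ) = 1 := Units.inv_mul _
    rw [h6, mul_one]
  rw [htv u hu3, hu1, hc, ← h3] at h2
  have ha0 : a ≠ 0 := by
    intro h
    have h8 := hTw i0 hi0
    rw [h, zero_mul] at h8
    exact Units.ne_zero (T i0) h8
  have h5 : a ^ (e - 1) * (chr S.α u g⁻¹ : ℂ) ≠ 0 := mul_ne_zero (pow_ne_zero _ ha0) (Units.ne_zero _)
  refine mul_right_cancel₀ h5 ?_
  rw [h2]
  have h7 : a ^ e = a * a ^ (e - 1) := by
    rw [← pow_succ']
    congr 1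
    omega
  rw [h7]
  ring

end Pool.Agent.Run7.h971.AQ
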