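import Pool.Agent.Run7.h971.AQ.P

/-!
# Separation of points and of tangent vectors: equations of small degree
-/

set_option autoImplicit false

namespace Pool.Agent.Run7.h971.AQ

open MvPolynomial Pool.Agent.TH144.MB

variable {M : ℕ} {G : Type} [CommGroup G] [Finite G] (S : Sit ℂ G M)

theorem points_b {r e b : ℕ} (hr : TopBound S.I r)
    (hb : ∀ v : Fin M → ℂ, (∀ p ∈ S.I, ∀ t ≤ b, p.IsHomogeneous t → eval v p = 0) →
      ∀ p ∈ S.I, eval v p = 0)
    (he : r + b ≤ e) (he1 : r + 1 ≤ e) {y y' : Fin M → ℂ}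
    (hy0 : y ≠ 0) (hy : ∀ p ∈ S.I, eval y p = 0) (hy'0 : y' ≠ 0)
    (hy' : ∀ p ∈ S.I, eval y' p = 0) (hne : ∀ g, mv S.α g y' ∉ Submodule.span ℂ {y})
    (χ : G →* ℂˣ) : ∃ F, Typ S.α χ e F ∧ eval y F ≠ 0 ∧ eval y' F = 0 := by
  classical
  have _ := Fintype.ofFinite G
  by_cases h1 : ∃ i, y i ≠ 0 ∧ y' i = 0
  · obtain ⟨i, hi, hi'⟩ := h1
    obtain ⟨m, hm, hmc, hmy⟩ := S.exists_mono hr hy0 hy (χ * (S.α i)⁻¹) (t := e - 1) (by omega)
    have h2 := (typ_monomial hmc).X_mul
    rw [hm, Nat.sub_add_cancel (by omega)] at h2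
    refine ⟨_, h2, ?_, ?_⟩
    · rw [map_mul, eval_X, eval_mono]
      exact mul_ne_zero hi hmy
    · rw [map_mul, eval_X, hi', zero_mul]
  by_cases h2 : ∃ i, y i = 0 ∧ y' i ≠ 0
  · obtain ⟨i, hi, hi'⟩ := h2
    obtain ⟨m, hm, hmc, hmy⟩ := S.exists_mono hr hy'0 hy' (χ * (S.α i)⁻¹) (t := e - 1) (by omega)
    have h2 := (typ_monomial hmc).X_mul
    rw [hm, Nat.sub_add_cancel (by omega)] at h2
    obtain ⟨m', hm', hmc', hmy'⟩ := S.exists_mono hr hy0 hy χ (t := e) (by omega)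
    have h3 := typ_monomial hmc'
    rw [hm'] at h3
    have h4 : eval y' (X i * monomial m (1 : ℂ)) ≠ 0 := by
      rw [map_mul, eval_X, eval_mono]
      exact mul_ne_zero hi' hmy
    refine ⟨monomial m' 1 - C (eval y' (monomial m' (1 : ℂ))
      / eval y' (X i * monomial m (1 : ℂ))) * (X i * monomial m 1), h3.sub (h2.C_mul _), ?_, ?_⟩
    · rw [map_sub, map_mul, map_mul (eval y) (X i), eval_X, hi, zero_mul, mul_zero, sub_zero,
        eval_mono]
      exact hmy'
    · rw [map_sub, map_mul (eval y') (C _), eval_C, div_mul_cancel₀ _ h4, sub_self]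
  · have hs : ∀ i, y' i = 0 ↔ y i = 0 := by
      push Not at h1 h2
      intro i
      constructor
      · intro h
        by_contra h3
        exact h1 i h3 h
      · intro h
        exact h2 i h
    by_contra hcon
    push Not at hcon
    let T : Fin M → ℂˣ := fun i =>
      if h : y i ≠ 0 then Units.mk0 (y' i / y i) (div_ne_zero (fun h3 => h ((hs i).1 h3)) h) else 1
    have hT : ∀ i, y i ≠ 0 → (T i : ℂ) * y i = y' i := by
      intro i hi
      simp only [T, dif_pos hi, Units.val_mk0]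
      exact div_mul_cancel₀ _ hi
    obtain ⟨m0, hm0, hmc0, hmy0⟩ := occurs S hr hy0 hy χ e (by omega)
    have hconst : ∀ m : Fin M →₀ ℕ, m.degree = e → tv S.α m = χ → mon m y ≠ 0 →
        tv T m = tv T m0 := by
      intro m hm hmc hmy
      have h4 := typ_monomial (α := S.α) hmc
      rw [hm] at h4
      have h5 := typ_monomial (α := S.α) hmc0
      rw [hm0] at h5
      have h6 : eval y' (C (mon m0 y') * monomial m 1 - C (mon m y') * monomial m0 (1 : ℂ)) = 0 := by
        rw [map_sub, map_mul, map_mul, eval_C, eval_C, eval_mono, eval_mono]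
        ring
      have h7 : eval y (C (mon m0 y') * monomial m 1 - C (mon m y') * monomial m0 (1 : ℂ)) = 0 := by
        by_contra h8
        exact hcon _ ((h4.C_mul (mon m0 y')).sub (h5.C_mul (mon m y'))) h8 h6
      rw [map_sub, map_mul, map_mul, eval_C, eval_C, eval_mono, eval_mono,
        ← mon_ratio T hT hmy0, ← mon_ratio T hT hmy] at h7
      refine Units.ext ?_
      have h8 : (((tv T m0 : ℂˣ) : ℂ) - ((tv T m : ℂˣ) : ℂ)) * (mon m y * mon m0 y) = 0 := by
        linear_combination h7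
      rcases mul_eq_zero.1 h8 with h | h
      · exact (sub_eq_zero.1 h).symm
      · exact absurd h (mul_ne_zero hmy hmy0)
    obtain ⟨g, s, hg⟩ := torus S hr hb he he1 hy0 hy χ T (tv T m0) hconst
    refine hne g⁻¹ (Submodule.mem_span_singleton.2 ⟨s, funext fun i => ?_⟩)
    rw [Pi.smul_apply, smul_eq_mul]
    show _ = (S.α i g⁻¹ : ℂ) * y' i
    by_cases hi : y i = 0
    · rw [hi, (hs i).2 hi, mul_zero, mul_zero]
    · rw [← hT i hi, hg i hi, map_inv]
      have h6 : (((S.α i g)⁻¹ : ℂˣ) : ℂ) * (S.α i g : ℂ) = 1 := Units.inv_mul _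
      linear_combination (-(s * y i)) * h6

theorem tangents_b {r e b : ℕ} (hr : TopBound S.I r)
    (hb : ∀ v : Fin M → ℂ, (∀ p ∈ S.I, ∀ t ≤ b, p.IsHomogeneous t → eval v p = 0) →
      ∀ p ∈ S.I, eval v p = 0)
    (he : r + b ≤ e) (he1 : r + 1 ≤ e)
    {y u : Fin M → ℂ} (hy0 : y ≠ 0) (hy : ∀ p ∈ S.I, eval y p = 0)
    (hne : u ∉ Submodule.span ℂ {y}) (χ : G →* ℂˣ) :
    ∃ F, Typ S.α χ e F ∧ eval y F = 0 ∧ dv F y u ≠ 0 := by
  classical
  have _ := Fintype.ofFinite G
  by_contra hcon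
  push Not at hcon
  have h1 : ∀ i, y i = 0 → u i = 0 := by
    intro i hi
    obtain ⟨m, hm, hmc, hmy⟩ := S.exists_mono hr hy0 hy (χ * (S.α i)⁻¹) (t := e - 1) (by omega)
    have h2 := (typ_monomial hmc).X_mul
    rw [hm, Nat.sub_add_cancel (by omega)] at h2
    have h3 := hcon _ h2 (by rw [map_mul, eval_X, hi, zero_mul])
    rw [dv_X_mul, hi, zero_mul, add_zero, eval_mono] at h3
    rcases mul_eq_zero.1 h3 with h | h
    · exact absurd h hmy
    · exact h
  obtain ⟨ξ, hξ⟩ : ∃ ξ : Fin M → ℂ, u = fun i => ξ i * y i := by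
    refine ⟨fun i => u i / y i, funext fun i => ?_⟩
    by_cases hi : y i = 0
    · rw [h1 i hi, hi, mul_zero]
    · rw [div_mul_cancel₀ _ hi]
  obtain ⟨i0, hi0⟩ : ∃ i, y i ≠ 0 := by
    by_contra hc
    push Not at hc
    exact hy0 (funext hc)
  obtain ⟨m0, hm0, hmc0, hmy0⟩ := S.exists_mono hr hy0 hy χ (t := e) (by omega)
  have h3 : ∀ m : Fin M →₀ ℕ, m.degree = e → chr S.α m = χ → mon m y ≠ 0 →
      ∑ i, (m i : ℂ) * ξ i = ∑ i, (m0 i : ℂ) * ξ i := by
    intro m hm hmc hmy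
    have h4 := typ_monomial hmc
    rw [hm] at h4
    have h5 := typ_monomial hmc0
    rw [hm0] at h5
    have h6 := hcon _ ((h4.C_mul (mon m0 y)).sub (h5.C_mul (mon m y))) (by
      rw [map_sub, map_mul, map_mul, eval_C, eval_C, eval_mono, eval_mono]; ring)
    rw [dv_sub, dv_C_mul, dv_C_mul, hξ, dv_monomial, dv_monomial] at h6
    have h7 : (∑ i, (m i : ℂ) * ξ i - ∑ i, (m0 i : ℂ) * ξ i) * (mon m y * mon m0 y) = 0 := by
      linear_combination h6
    rcases mul_eq_zero.1 h7 with h | h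
    · exact sub_eq_zero.1 h
    · exact absurd h (mul_ne_zero hmy hmy0)
  -- the one-parameter group
  let T : ℂ → Fin M → ℂˣ := fun z i => Units.mk0 (Complex.exp (z * ξ i)) (Complex.exp_ne_zero _)
  have htv : ∀ (z : ℂ) (m : Fin M →₀ ℕ),
      ((tv (T z) m : ℂˣ) : ℂ) = Complex.exp (z * ∑ i, (m i : ℂ) * ξ i) := by
    intro z m
    unfold tv
    rw [Units.coe_prod, Finset.mul_sum, Complex.exp_sum]
    refine Finset.prod_congr rfl fun i _ => ?_
    rw [Units.val_pow_eq_pow_val]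
    show Complex.exp (z * ξ i) ^ m i = _
    rw [← Complex.exp_nat_mul]
    congr 1
    ring
  have hone : ∀ (i j : Fin M), y i ≠ 0 → y j ≠ 0 → ∀ z : ℂ,
      Complex.exp (Fintype.card G * (z * (ξ i - ξ j))) = 1 := by
    intro i j hi hj z
    obtain ⟨g, s, hg⟩ := torus S hr hb he he1 hy0 hy χ (T z) (tv (T z) m0) (by
      intro m hm hmc hmy
      refine Units.ext ?_
      rw [htv, htv, h3 m hm hmc hmy])
    have h4 : Complex.exp (z * ξ i) = s * (S.α i g : ℂ) := hg i hi
    have h5 : Complex.exp (z * ξ j) = s * (S.α j g : ℂ) := hg j hj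
    have hs : s ≠ 0 := by
      intro h
      rw [h, zero_mul] at h4
      exact Complex.exp_ne_zero _ h4
    have h6 : Complex.exp (z * (ξ i - ξ j)) = (S.α i g : ℂ) / (S.α j g : ℂ) := by
      rw [mul_sub, Complex.exp_sub, h4, h5, mul_div_mul_left _ _ hs]
    have h7 : ∀ k, (S.α k g : ℂ) ^ Fintype.card G = 1 := by
      intro k
      rw [← Units.val_pow_eq_pow_val, ← map_pow, pow_card_eq_one, map_one, Units.val_one]
    rw [Complex.exp_nat_mul, h6, div_pow, h7, h7, div_one]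
  refine hne (Submodule.mem_span_singleton.2 ⟨ξ i0, funext fun i => ?_⟩)
  rw [Pi.smul_apply, smul_eq_mul, hξ]
  show ξ i0 * y i = ξ i * y i
  by_cases hi : y i = 0
  · rw [hi, mul_zero, mul_zero]
  · by_cases h4 : ξ i = ξ i0
    · rw [h4]
    · exfalso
      have hc : (Fintype.card G : ℂ) ≠ 0 := Nat.cast_ne_zero.2 Fintype.card_ne_zero
      have h5 := hone i i0 hi hi0 (1 / ((Fintype.card G : ℂ) * (ξ i - ξ i0)))
      have h6 : (Fintype.card G : ℂ) * (1 / ((Fintype.card G : ℂ) * (ξ i - ξ i0)) * (ξ i - ξ i0))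
          = 1 := by
        have := sub_ne_zero.2 h4
        field_simp
      rw [h6] at h5
      have h7 : ((Real.exp 1 : ℝ) : ℂ) = 1 := by
        rw [Complex.ofReal_exp, Complex.ofReal_one, h5]
      have h8 : Real.exp 1 = 1 := by exact_mod_cast h7
      have h9 : (1 : ℝ) < Real.exp 1 := Real.one_lt_exp_iff.2 one_pos
      linarith

end Pool.Agent.Run7.h971.AQ
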