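import Pool.Agent.Run7.h971.AQ.Q
import Pool.Agent.Run7.h971.AQ.E

/-!
# Separation for finite commutative groups of linear maps: equations of small degree
-/

set_option autoImplicit false

namespace Pool.Agent.Run7.h971.AQ

open MvPolynomial Module Pool.Agent.N212.FQ

variable {M : ℕ}

/-- the forms of degree `≤ r + 1` in `I` cut out the zero set of `I` -/
theorem cut_of_topBound {I : Ideal (MvPolynomial (Fin M) ℂ)}
    (hom : ∀ p ∈ I, ∀ n, homogeneousComponent n p ∈ I) {r b : ℕ}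
    (hr : Pool.Agent.TH144.MB.TopBound I r) (hb : r + 1 ≤ b) (v : Fin M → ℂ)
    (hv : ∀ p ∈ I, ∀ t ≤ b, p.IsHomogeneous t → eval v p = 0) : ∀ p ∈ I, eval v p = 0 := by
  classical
  by_contra hcon
  push Not at hcon
  obtain ⟨p, hp, hpv⟩ := hcon
  obtain ⟨n, hn⟩ : ∃ n, eval v (homogeneousComponent n p) ≠ 0 := by
    by_contra hc
    push Not at hc
    refine hpv ?_
    rw [← sum_homogeneousComponent p, map_sum]
    exact Finset.sum_eq_zero fun i _ => hc i
  have hlin : ∀ (a : Fin M → ℂ) (x : Fin M → ℂ), eval x (Pool.Agent.TH144.MB.lin a) =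
      ∑ i, a i * x i := fun a x => Pool.Agent.TH144.MB.eval_lin _ _
  by_cases hv0 : v = 0
  · rcases Nat.eq_zero_or_pos n with h | h
    · subst h
      exact hn (hv _ (hom p hp 0) 0 (Nat.zero_le _) (homogeneousComponent_isHomogeneous 0 p))
    · refine hn ?_
      have h1 := Pool.Agent.N212.FQ.eval_smul_of_isHomogeneous
        (homogeneousComponent_isHomogeneous n p) (0 : ℂ) v
      rw [hv0, smul_zero, zero_pow h.ne', zero_mul] at h1
      rw [hv0]
      exact h1
  obtain ⟨i0, hi0⟩ : ∃ i, v i ≠ 0 := by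
    by_contra hc
    push Not at hc
    exact hv0 (funext hc)
  let L : Fin M → Fin M → ℂ := fun i j =>
    v i0 * (if j = i then 1 else 0) - v i * (if j = i0 then 1 else 0)
  have hL : ∀ (i : Fin M) (x : Fin M → ℂ),
      eval x (Pool.Agent.TH144.MB.lin (L i)) = v i0 * x i - v i * x i0 := by
    intro i x
    rw [hlin]
    simp only [L, sub_mul, Finset.sum_sub_distrib, mul_assoc, ← Finset.mul_sum, ite_mul, one_mul,
      zero_mul, Finset.sum_ite_eq', Finset.mem_univ, if_true]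
  have h1 := hr M L (by
    intro x hx hxL
    have h2 : ∀ i, x i = (x i0 / v i0) * v i := by
      intro i
      have h3 := hxL i
      rw [hL] at h3
      field_simp
      linear_combination h3
    have h3 : x = (x i0 / v i0) • v := funext fun i => by
      rw [Pi.smul_apply, smul_eq_mul]
      exact h2 i
    have h4 := hx _ (hom p hp n)
    rw [h3, Pool.Agent.N212.FQ.eval_smul_of_isHomogeneous
      (homogeneousComponent_isHomogeneous n p)] at h4
    rcases mul_eq_zero.1 h4 with h | h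
    · have h5 : x i0 / v i0 = 0 := by
        by_contra h6
        exact (pow_ne_zero n h6) h
      rw [h3, h5, zero_smul]
    · exact absurd h hn) (r + 1) (Nat.lt_succ_self r) (X i0 ^ (r + 1))
    (by simpa using (isHomogeneous_X ℂ i0).pow (r + 1))
  obtain ⟨q, hq, l, hl, hql⟩ := Submodule.mem_sup.1 h1
  have hlh : Pool.Agent.TH144.MB.Hom
      (Ideal.span (Set.range fun i => Pool.Agent.TH144.MB.lin (L i))) := by
    refine Pool.Agent.TH144.MB.hom_span ?_
    rintro _ ⟨i, rfl⟩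
    exact ⟨1, Pool.Agent.TH144.MB.lin_hom _⟩
  have hl2 : ∀ l ∈ Ideal.span (Set.range fun i => Pool.Agent.TH144.MB.lin (L i)),
      eval v l = 0 := by
    have h5 : Ideal.span (Set.range fun i => Pool.Agent.TH144.MB.lin (L i))
        ≤ RingHom.ker (eval v) := by
      rw [Ideal.span_le]
      rintro _ ⟨i, rfl⟩
      refine RingHom.mem_ker.2 ?_
      rw [hL, mul_comm, sub_self]
    exact fun l hl => RingHom.mem_ker.1 (h5 hl)
  have h2 : eval v (X i0 ^ (r + 1) : MvPolynomial (Fin M) ℂ) = 0 := by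
    have h3 : (X i0 ^ (r + 1) : MvPolynomial (Fin M) ℂ) =
        homogeneousComponent (r + 1) q + homogeneousComponent (r + 1) l := by
      rw [← map_add, hql, homogeneousComponent_of_mem (show X i0 ^ (r + 1) ∈
        homogeneousSubmodule (Fin M) ℂ (r + 1) from by
          simpa using (isHomogeneous_X ℂ i0).pow (r + 1)), if_pos rfl]
    rw [h3, map_add, hl2 _ (hlh l hl _), add_zero]
    exact hv _ (hom q hq _) (r + 1) hb (homogeneousComponent_isHomogeneous _ q)
  rw [map_pow, eval_X] at h2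
  exact (pow_ne_zero _ hi0) h2

theorem cut_newIdeal {I : Ideal (MvPolynomial (Fin M) ℂ)} {T : (Fin M → ℂ) ≃ₗ[ℂ] (Fin M → ℂ)}
    {b : ℕ} (hb : ∀ v : Fin M → ℂ, (∀ p ∈ I, ∀ t ≤ b, p.IsHomogeneous t → eval v p = 0) →
      ∀ p ∈ I, eval v p = 0) (v : Fin M → ℂ)
    (hv : ∀ p ∈ newIdeal I T, ∀ t ≤ b, p.IsHomogeneous t → eval v p = 0) :
    ∀ p ∈ newIdeal I T, eval v p = 0 := by
  refine zero_newIdeal.2 (hb _ fun p hp t ht hpt => ?_)
  have h1 := hv _ (subst_mem (T := T) hp) t ht (subst_isHomogeneous _ hpt)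
  rw [eval_subst] at h1
  exact h1

section

variable {G : Type} [CommGroup G] [Finite G] (ρ : Representation ℂ G (Fin M → ℂ))
    {I : Ideal (MvPolynomial (Fin M) ℂ)} (hom : ∀ p ∈ I, ∀ n, homogeneousComponent n p ∈ I)
    (stable : ∀ g, ∀ p ∈ I, subst (ρ g) p ∈ I)
    (free : ∀ v : Fin M → ℂ, v ≠ 0 → (∀ p ∈ I, eval v p = 0) → ∀ (g : G) (μ : ℂ),
      ρ g v = μ • v → g ∈ scalars ρ)
    {r e b : ℕ} (hr : Pool.Agent.TH144.MB.TopBound I r)
    (hb : ∀ v : Fin M → ℂ, (∀ p ∈ I, ∀ t ≤ b, p.IsHomogeneous t → eval v p = 0) →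
      ∀ p ∈ I, eval v p = 0)
    (hre : r + b ≤ e) (hre1 : r + 1 ≤ e) (χ : G →* ℂˣ)
    (hχ : ∀ (g : G) (c : ℂ), (∀ x, ρ g x = c • x) → (χ g : ℂ) = c ^ e)

include hom stable free hr hb hre hre1 hχ in
theorem points' {y z : Fin M → ℂ} (hy0 : y ≠ 0) (hy : ∀ p ∈ I, eval y p = 0)
    (hz0 : z ≠ 0) (hz : ∀ p ∈ I, eval z p = 0) (hyz : ¬ ∃ (g : G) (c : ℂ), z = c • ρ g y) :
    ∃ F : MvPolynomial (Fin M) ℂ, (F.IsHomogeneous e ∧
      ∀ g x, eval (ρ g x) F = χ g * eval x F) ∧ eval y F = 0 ∧ eval z F ≠ 0 := by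
  obtain ⟨i0, hi0⟩ : ∃ i, y i ≠ 0 := by
    by_contra hc
    push Not at hc
    exact hy0 (funext hc)
  obtain ⟨T, c, S, χ', hSI, hmv, hχ'⟩ := exists_sit ρ hom stable free χ hχ i0
  obtain ⟨F, h1, h2, h3⟩ := points_b S (y := T.symm z) (y' := T.symm y)
    (by rw [hSI]; exact topBound_newIdeal hr)
    (by rw [hSI]; exact cut_newIdeal hb) hre hre1 (by simpa using hz0)
    (by rw [hSI]; exact zero_newIdeal.2 (by simpa using hz)) (by simpa using hy0)
    (by rw [hSI]; exact zero_newIdeal.2 (by simpa using hy)) (by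
      intro g' h
      obtain ⟨g, rfl⟩ := QuotientGroup.mk_surjective g'
      obtain ⟨a, ha⟩ := Submodule.mem_span_singleton.1 h
      have h5 := hmv g (T.symm y)
      rw [LinearEquiv.apply_symm_apply] at h5
      have h6 : T (Pool.Agent.TH144.MB.mv S.α (g : G ⧸ scalars ρ) (T.symm y)) = a • z := by
        rw [← T.apply_symm_apply z, ← map_smul, ← ha]
      rw [h6, smul_smul] at h5
      have ha0 : (c g : ℂ) * a ≠ 0 := by
        intro h7
        rw [h7, zero_smul] at h5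
        refine hy0 (rho_injective ρ g ?_)
        rw [h5, map_zero]
      refine hyz ⟨g, ((c g : ℂ) * a)⁻¹, ?_⟩
      rw [h5, smul_smul, inv_mul_cancel₀ ha0, one_smul]) χ'
  refine ⟨_, typ_subst ρ χ hmv hχ' h1, ?_, ?_⟩
  · rw [eval_subst]
    exact h3
  · rw [eval_subst]
    exact h2

include hom stable free hr hb hre hre1 hχ in
theorem tangents' {y u : Fin M → ℂ} (hy0 : y ≠ 0) (hy : ∀ p ∈ I, eval y p = 0)
    (hu : ¬ ∃ c : ℂ, u = c • y) :
    ∃ F : MvPolynomial (Fin M) ℂ, (F.IsHomogeneous e ∧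
      ∀ g x, eval (ρ g x) F = χ g * eval x F) ∧ eval y F = 0 ∧
      ∑ i, eval y (pderiv i F) * u i ≠ 0 := by
  obtain ⟨i0, hi0⟩ : ∃ i, y i ≠ 0 := by
    by_contra hc
    push Not at hc
    exact hy0 (funext hc)
  obtain ⟨T, c, S, χ', hSI, hmv, hχ'⟩ := exists_sit ρ hom stable free χ hχ i0
  obtain ⟨F, h1, h2, h3⟩ := tangents_b S (y := T.symm y) (u := T.symm u)
    (by rw [hSI]; exact topBound_newIdeal hr)
    (by rw [hSI]; exact cut_newIdeal hb) hre hre1 (by simpa using hy0)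
    (by rw [hSI]; exact zero_newIdeal.2 (by simpa using hy)) (by
      intro h
      obtain ⟨a, ha⟩ := Submodule.mem_span_singleton.1 h
      refine hu ⟨a, ?_⟩
      have h4 := congrArg T ha
      rw [map_smul, LinearEquiv.apply_symm_apply, LinearEquiv.apply_symm_apply] at h4
      exact h4.symm) χ'
  refine ⟨_, typ_subst ρ χ hmv hχ' h1, ?_, ?_⟩
  · rw [eval_subst]
    exact h2
  · have h4 := der_subst (T.symm : (Fin M → ℂ) →ₗ[ℂ] (Fin M → ℂ)) F y u
    intro h5
    refine h3 ?_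
    unfold der at h4
    rw [h5] at h4
    exact h4.symm

end

end Pool.Agent.Run7.h971.AQ
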